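import Pool.Agent.Helper92.HX.Defs

/-! # Labelled and unlabelled hexagons (module COPY of the project HX) -/

namespace Pool.Agent.Helper1.HX

open Finset SimpleGraph Pool.Agent.Helper92.HX

lemma adj6 (i j : Fin 6) : (cycleGraph 6).Adj i j ↔ (j = i + 1 ∨ i = j + 1) := by
  rw [cycleGraph_adj]
  revert i j
  decide

lemma adj8 (i j : Fin 8) : (cycleGraph 8).Adj i j ↔ (j = i + 1 ∨ i = j + 1) := by
  rw [cycleGraph_adj]
  revert i j
  decide

/-- a closed six-walk gives a homomorphism -/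
def hom6 {V : Type*} {G : SimpleGraph V} {f : Fin 6 → V} (h : ∀ i, G.Adj (f i) (f (i + 1))) :
    cycleGraph 6 →g G where
  toFun := f
  map_rel' := by
    intro i j hij
    rcases (adj6 i j).1 hij with rfl | rfl
    · exact h i
    · exact (h j).symm

/-- a closed eight-walk gives a homomorphism -/
def hom8 {V : Type*} {G : SimpleGraph V} {f : Fin 8 → V} (h : ∀ i, G.Adj (f i) (f (i + 1))) :
    cycleGraph 8 →g G where
  toFun := f
  map_rel' := by
    intro i j hij
    rcases (adj8 i j).1 hij with rfl | rfl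
    · exact h i
    · exact (h j).symm

/-- labelled hexagons are copies -/
def hexEquiv {V : Type*} (G : SimpleGraph V) : {f : Fin 6 → V // IsHex G f} ≃ Copy (cycleGraph 6) G where
  toFun f := ⟨hom6 f.2.2, f.2.1⟩
  invFun c := ⟨c, c.injective, fun i => c.toHom.map_rel ((adj6 i (i + 1)).2 (Or.inl rfl))⟩
  left_inv _ := rfl
  right_inv _ := rfl

lemma up : ∀ a b c : Fin 6, b = a + 1 → (c = b + 1 ∨ b = c + 1) → c ≠ a → c = b + 1 := by
  decide

lemma down : ∀ a b c : Fin 6, a = b + 1 → (c = b + 1 ∨ b = c + 1) → c ≠ a → b = c + 1 := by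
  decide

lemma up_all : ∀ a b c d e f : Fin 6, b = a + 1 → c = b + 1 → d = c + 1 → e = d + 1 → f = e + 1 →
    (b = a + 1 ∧ c = a + 2 ∧ d = a + 3 ∧ e = a + 4 ∧ f = a + 5) := by
  rintro a b c d e f rfl rfl rfl rfl rfl
  refine ⟨rfl, ?_, ?_, ?_, ?_⟩ <;> revert a <;> decide

lemma down_all : ∀ a b c d e f : Fin 6, a = b + 1 → b = c + 1 → c = d + 1 → d = e + 1 → e = f + 1 →
    (b = a - 1 ∧ c = a - 2 ∧ d = a - 3 ∧ e = a - 4 ∧ f = a - 5) := by
  rintro a b c d e f rfl rfl rfl rfl rfl
  refine ⟨?_, ?_, ?_, ?_, ?_⟩ <;> revert f <;> decide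

lemma form_aux (a b c d e f : Fin 6) (h1 : b = a + 1 ∨ a = b + 1) (h2 : c = b + 1 ∨ b = c + 1)
    (n2 : c ≠ a) (h3 : d = c + 1 ∨ c = d + 1) (n3 : d ≠ b) (h4 : e = d + 1 ∨ d = e + 1) (n4 : e ≠ c)
    (h5 : f = e + 1 ∨ e = f + 1) (n5 : f ≠ d) :
    ((b = a + 1 ∧ c = a + 2 ∧ d = a + 3 ∧ e = a + 4 ∧ f = a + 5) ∨
     (b = a - 1 ∧ c = a - 2 ∧ d = a - 3 ∧ e = a - 4 ∧ f = a - 5)) := by
  rcases h1 with h1 | h1
  · left
    have k2 := up a b c h1 h2 n2
    have k3 := up b c d k2 h3 n3
    have k4 := up c d e k3 h4 n4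
    have k5 := up d e f k4 h5 n5
    exact up_all a b c d e f h1 k2 k3 k4 k5
  · right
    have k2 := down a b c h1 h2 n2
    have k3 := down b c d k2 h3 n3
    have k4 := down c d e k3 h4 n4
    have k5 := down d e f k4 h5 n5
    exact down_all a b c d e f h1 k2 k3 k4 k5

/-- labelled hexagons of the hexagon -/
lemma form {s : Fin 6 → Fin 6} (h : IsHex (cycleGraph 6) s) :
    (∀ i, s i = s 0 + i) ∨ (∀ i, s i = s 0 - i) := by
  have hadj : ∀ i, (s (i + 1) = s i + 1 ∨ s i = s (i + 1) + 1) := fun i => (adj6 _ _).1 (h.2 i)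
  have hne : ∀ i j, i ≠ j → s i ≠ s j := fun i j hij e => hij (h.1 e)
  have key := form_aux (s 0) (s 1) (s 2) (s 3) (s 4) (s 5) (hadj 0) (hadj 1) (hne _ _ (by decide))
    (hadj 2) (hne _ _ (by decide)) (hadj 3) (hne _ _ (by decide)) (hadj 4) (hne _ _ (by decide))
  rcases key with ⟨h1, h2, h3, h4, h5⟩ | ⟨h1, h2, h3, h4, h5⟩
  · left
    intro i
    fin_cases i
    · simp
    · exact h1
    · exact h2
    · exact h3
    · exact h4
    · exact h5
  · right
    intro i
    fin_cases i
    · simp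
    · exact h1
    · exact h2
    · exact h3
    · exact h4
    · exact h5

/-- the dihedral maps -/
def dih (p : Fin 6 × Bool) (i : Fin 6) : Fin 6 := if p.2 then p.1 + i else p.1 - i

lemma dih_hex (p : Fin 6 × Bool) : IsHex (cycleGraph 6) (dih p) := by
  constructor
  · revert p; decide
  · intro i
    rw [adj6]
    revert p i
    decide

lemma dih_inj : Function.Injective dih := by
  have h : ∀ p q : Fin 6 × Bool, dih p 0 = dih q 0 → dih p 1 = dih q 1 → p = q := by decide
  intro p q e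
  exact h p q (congrFun e 0) (congrFun e 1)

lemma dih_surj {s : Fin 6 → Fin 6} (h : IsHex (cycleGraph 6) s) : ∃ p, dih p = s := by
  rcases form h with h | h
  · exact ⟨(s 0, true), funext fun i => by simp [dih, h i]⟩
  · exact ⟨(s 0, false), funext fun i => by simp [dih, h i]⟩

/-- reflecting adjacency -/
lemma dih_adj (p : Fin 6 × Bool) (i j : Fin 6) (h : (cycleGraph 6).Adj (dih p i) (dih p j)) :
    (cycleGraph 6).Adj i j := by
  rw [adj6] at h ⊢
  revert p i j
  decide

/-- the copies of the hexagon in itself -/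
noncomputable def dihCopy (p : Fin 6 × Bool) : Copy (cycleGraph 6) (cycleGraph 6) :=
  hexEquiv _ ⟨dih p, dih_hex p⟩

lemma iso_of_eq {V : Type*} {G : SimpleGraph V} {A B : G.Subgraph} (h : A = B) :
    ∃ e : A.coe ≃g B.coe, ∀ x, (e x : V) = x := by
  subst h
  exact ⟨Iso.refl, fun _ => rfl⟩

/-- two labelled hexagons with the same subgraph differ by a dihedral map -/
lemma same_sub {V : Type*} {G : SimpleGraph V} (f g : Copy (cycleGraph 6) G)
    (h : g.toSubgraph = f.toSubgraph) : ∃ p, f.comp (dihCopy p) = g := by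
  obtain ⟨e, he⟩ := iso_of_eq h
  set s : cycleGraph 6 ≃g cycleGraph 6 := (g.isoToSubgraph.trans e).trans f.isoToSubgraph.symm with hs
  have h1 : IsHex (cycleGraph 6) s := ⟨s.injective, fun i =>
    s.map_rel_iff.2 ((adj6 i (i + 1)).2 (Or.inl rfl))⟩
  obtain ⟨p, hp⟩ := dih_surj h1
  refine ⟨p, ?_⟩
  ext i
  have h2 : f.isoToSubgraph (s i) = e (g.isoToSubgraph i) := by
    simp [hs]
  have h3 : ((f.isoToSubgraph (s i) : f.toSubgraph.verts) : V) = f (s i) := rfl
  have h4 : ((g.isoToSubgraph i : g.toSubgraph.verts) : V) = g i := rfl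
  have h5 : (f.comp (dihCopy p)) i = f (dih p i) := rfl
  rw [h5, hp, ← h3, h2, he, h4]

/-- a dihedral map does not change the subgraph -/
lemma sub_comp {V : Type*} {G : SimpleGraph V} (f : Copy (cycleGraph 6) G) (p : Fin 6 × Bool) :
    (f.comp (dihCopy p)).toSubgraph = f.toSubgraph := by
  have h0 : ∀ i, (dihCopy p) i = dih p i := fun _ => rfl
  have hsurj : Function.Surjective (dih p) :=
    Finite.surjective_of_injective (dih_hex p).1
  have h5 : ∀ i, (f.comp (dihCopy p)) i = f (dih p i) := fun _ => rfl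
  ext x y
  · simp only [Subgraph.map_verts, Subgraph.verts_top, Set.image_univ, Set.mem_range]
    constructor
    · rintro ⟨i, rfl⟩; exact ⟨dih p i, rfl⟩
    · rintro ⟨i, rfl⟩
      obtain ⟨j, rfl⟩ := hsurj i
      exact ⟨j, rfl⟩
  · simp only [Subgraph.map_adj, Relation.Map, Subgraph.top_adj]
    constructor
    · rintro ⟨i, j, hij, rfl, rfl⟩
      exact ⟨dih p i, dih p j, (dihCopy p).toHom.map_rel hij, rfl, rfl⟩
    · rintro ⟨i, j, hij, rfl, rfl⟩
      obtain ⟨i, rfl⟩ := hsurj i
      obtain ⟨j, rfl⟩ := hsurj j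
      exact ⟨i, j, dih_adj p i j hij, rfl, rfl⟩

end Pool.Agent.Helper1.HX

namespace Pool.Agent.Helper92.HX

open Finset SimpleGraph Pool.Agent.Helper1.HX

/-- module COPY: every unlabelled hexagon is labelled in 12 ways -/
theorem copy_count {n : ℕ} (G : SimpleGraph (Fin n)) [DecidableRel G.Adj] :
    12 * G.copyCount (cycleGraph 6) = hexCount G := by
  classical
  have h1 : hexCount G = Fintype.card (Copy (cycleGraph 6) G) := by
    rw [← Fintype.card_congr (hexEquiv G), Fintype.card_subtype]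
    rfl
  rw [h1, copyCount_eq_card_image_copyToSubgraph]
  have h2 := Finset.card_eq_sum_card_image (Copy.toSubgraph : Copy (cycleGraph 6) G → G.Subgraph) univ
  rw [Finset.card_univ] at h2
  rw [h2, Finset.sum_const_nat (m := 12), mul_comm]
  intro G' hG'
  obtain ⟨f, -, rfl⟩ := Finset.mem_image.1 hG'
  have h3 : (univ.filter fun g : Copy (cycleGraph 6) G => g.toSubgraph = f.toSubgraph) =
      (univ : Finset (Fin 6 × Bool)).image fun p => f.comp (dihCopy p) := by
    ext g
    simp only [Finset.mem_filter, Finset.mem_univ, true_and, Finset.mem_image]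
    constructor
    · intro h
      exact same_sub f g h
    · rintro ⟨p, rfl⟩
      exact sub_comp f p
  rw [h3, Finset.card_image_of_injective]
  · simp
  · intro p q h
    refine dih_inj (funext fun i => ?_)
    have := DFunLike.congr_fun h i
    exact f.injective this

/-- module COPY: Mathlib freeness gives NoC8 -/
theorem noC8_iff {V : Type*} (G : SimpleGraph V) : (cycleGraph 8).Free G ↔ NoC8 G := by
  constructor
  · intro hF a b c d e f g h hn h1 h2 h3 h4 h5 h6 h7 h8
    refine hF ⟨⟨hom8 (f := ![a, b, c, d, e, f, g, h]) ?_, ?_⟩⟩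
    · intro i
      fin_cases i
      · exact h1
      · exact h2
      · exact h3
      · exact h4
      · exact h5
      · exact h6
      · exact h7
      · exact h8
    · have : List.ofFn ![a, b, c, d, e, f, g, h] = [a, b, c, d, e, f, g, h] := rfl
      rw [← this, List.nodup_ofFn] at hn
      exact hn
  · rintro hN ⟨c⟩
    have hadj : ∀ i, G.Adj (c i) (c (i + 1)) := fun i =>
      c.toHom.map_rel ((adj8 i (i + 1)).2 (Or.inl rfl))
    refine hN (c 0) (c 1) (c 2) (c 3) (c 4) (c 5) (c 6) (c 7) ?_ (hadj 0) (hadj 1) (hadj 2) (hadj 3)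
      (hadj 4) (hadj 5) (hadj 6) (hadj 7)
    have : List.ofFn (fun i : Fin 8 => c i) = [c 0, c 1, c 2, c 3, c 4, c 5, c 6, c 7] := rfl
    rw [← this, List.nodup_ofFn]
    exact c.injective

end Pool.Agent.Helper92.HX
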